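import Pool.Agent.Helper92.BO.GoalsG
import Pool.Agent.Helper31.BO.CSN

/-! Project BO: packet CGD. -/

set_option autoImplicit false

namespace Pool.Agent.Helper35.BO

open MeasureTheory Filter Topology Function
open Pool.Agent.Helper92.BO
open Pool.Agent.Helper31.BO (ii_psi ii_rho rho_pos kap_le)

theorem ae_ne (a : ℝ) : ∀ᵐ x : ℝ, x ≠ a := by
  simp [ae_iff, measure_singleton]

theorem ii_meas {f : ℝ → ℝ} (hf : Measurable f) {C : ℝ} (hC : ∀ x, ‖f x‖ ≤ C) (a b : ℝ) :
    IntervalIntegrable f volume a b := by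
  rw [intervalIntegrable_iff]
  exact Measure.integrableOn_of_bounded (M := C) (by simp) hf.aestronglyMeasurable
    (Eventually.of_forall hC)

theorem psiR_nn {l : ℝ} (l0 : 0 < l) (x : ℝ) : 0 ≤ psiR l x := by
  unfold psiR
  split_ifs
  · exact zero_le_one
  · exact l0.le

theorem psiR_le {l : ℝ} (l1 : l ≤ 1) (x : ℝ) : psiR l x ≤ 1 := by
  unfold psiR
  split_ifs
  · exact le_rfl
  · exact l1

theorem psiR_meas (l : ℝ) : Measurable (psiR l) := by
  unfold psiR
  exact Measurable.ite measurableSet_Iic measurable_const measurable_const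

/-- the pointwise bound -/
theorem point {d : ℕ} {l κ : ℝ} {z : ℂ} {W : ℝ → ℝ} {V : ℝ → ℂ} {T : ℝ → ℝ → ℝ}
    (h : StepG d l κ z W V T)
    (hc : ∀ x, 0 < x → x < 1 → x ≠ 1 / 2 → ‖psi z x * V x - V (1 / 4) / W (1 / 4) * rho l W x‖ ≤
      2 * κ * (d + 1) * ‖V (1 / 4) / W (1 / 4)‖ * rho l W x)
    {x' x : ℝ} (h0 : 0 < x') (hx : x' < x) (h1 : x < 1) (hn' : x' ≠ 1 / 2) (hn : x ≠ 1 / 2) :
    ‖psi z x * V x * (rho l W x' : ℝ) - (rho l W x : ℝ) * (psi z x' * V x')‖ ≤
      (1 + 8 * κ * (d + 1)) * ‖V (1 / 4) / W (1 / 4)‖ * κ *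
        (rho l W x * rho l W x' * T x' x +
          l / 8 * ((if 1 / 2 < x then 1 else 0) * rho l W x * rho l W x')) := by
  have l0 := h.l0
  have κ0 := h.κ0
  have hk := kap_le l0 h.l1 h.κ1
  have hd0 : (0 : ℝ) ≤ d := Nat.cast_nonneg d
  have hk1 : κ * (d + 1) ≤ 1 / 800 := by nlinarith [mul_nonneg κ0.le hd0]
  have hk2 : κ * d ≤ 1 / 800 := by nlinarith
  obtain ⟨E, e1, e2⟩ := h.rel x' x h0 hx h1 hn' hn
  obtain ⟨m0, m1⟩ := h.mono x' x h0 hx h1 hn' hn
  have hρ := rho_pos l0 h.adm (h0.trans hx).le h1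
  have hρ' := rho_pos l0 h.adm h0.le (hx.trans h1)
  have hlc : (l : ℂ) ≠ 0 := by exact_mod_cast l0.ne'
  obtain ⟨r, hr⟩ : ∃ r, r = ‖V (1 / 4) / (W (1 / 4) : ℂ)‖ := ⟨_, rfl⟩
  have hr0 : 0 ≤ r := by rw [hr]; exact norm_nonneg _
  obtain ⟨m, hm, hmz⟩ : ∃ m : ℂ, ‖m‖ ≤ κ * l / 8 * (if 1 / 2 < x then 1 else 0) ∧
      psi z x * V x * (rho l W x' : ℝ) - (rho l W x : ℝ) * (psi z x' * V x') =
        (psi z x' * V x') * (rho l W x : ℝ) * (Complex.exp E * (1 + m) - 1) := by
    unfold rho psi psiR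
    by_cases c1 : x ≤ 1 / 2
    · have c2 : x' ≤ 1 / 2 := by linarith
      refine ⟨0, ?_, ?_⟩
      · rw [norm_zero, if_neg (not_lt.2 c1), mul_zero]
      · rw [if_pos c1, if_pos c2, if_pos c1, if_pos c2]
        push_cast
        linear_combination e1
    · push Not at c1
      by_cases c2 : x' ≤ 1 / 2
      · refine ⟨(z - l) / l, ?_, ?_⟩
        · rw [if_pos c1, mul_one, norm_div, Complex.norm_real, Real.norm_of_nonneg l0.le,
            div_le_iff₀ l0]
          refine h.hz.trans (le_of_eq ?_)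
          ring
        · rw [if_neg (not_le.2 c1), if_pos c2, if_neg (not_le.2 c1), if_pos c2]
          push_cast
          field_simp
          linear_combination z * e1
      · refine ⟨0, ?_, ?_⟩
        · rw [norm_zero, if_pos c1]
          positivity
        · rw [if_neg (not_le.2 c1), if_neg c2, if_neg (not_le.2 c1), if_neg c2]
          push_cast
          linear_combination z * l * e1
  obtain ⟨s, hs⟩ : ∃ s : ℝ, s = if 1 / 2 < x then 1 else 0 := ⟨_, rfl⟩
  have hs0 : 0 ≤ s := by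
    rw [hs]
    split_ifs <;> norm_num
  rw [← hs] at hm ⊢
  rw [hmz, ← hr, norm_mul, norm_mul, Complex.norm_real, Real.norm_of_nonneg hρ.le]
  have hR : ‖psi z x' * V x'‖ ≤ (1 + 2 * (κ * (d + 1))) * r * rho l W x' := by
    have h2 := hc x' h0 (hx.trans h1) hn'
    have h3 : ‖psi z x' * V x'‖ ≤ ‖psi z x' * V x' - V (1 / 4) / W (1 / 4) * rho l W x'‖ +
        ‖V (1 / 4) / W (1 / 4) * (rho l W x' : ℂ)‖ := by
      have := norm_add_le (psi z x' * V x' - V (1 / 4) / W (1 / 4) * rho l W x')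
        (V (1 / 4) / W (1 / 4) * (rho l W x' : ℂ))
      rwa [sub_add_cancel] at this
    rw [norm_mul (V (1 / 4) / (W (1 / 4) : ℂ)), Complex.norm_real,
      Real.norm_of_nonneg hρ'.le, ← hr] at h3
    rw [← hr] at h2
    nlinarith
  have hE1 : ‖E‖ ≤ κ * d := e2.trans (mul_le_mul_of_nonneg_left m1 κ0.le)
  have hE2 : ‖Complex.exp E - 1‖ ≤ (1 + κ * d) * ‖E‖ := by
    have h2 := Complex.norm_exp_sub_one_sub_id_le (x := E) (by linarith)
    have h3 : ‖Complex.exp E - 1‖ ≤ ‖Complex.exp E - 1 - E‖ + ‖E‖ := by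
      have := norm_add_le (Complex.exp E - 1 - E) E
      rwa [sub_add_cancel] at this
    nlinarith [norm_nonneg E]
  have hE3 : ‖Complex.exp E‖ ≤ 1 + 2 * (κ * d) := by
    have h3 : ‖Complex.exp E‖ ≤ ‖Complex.exp E - 1‖ + ‖(1 : ℂ)‖ := by
      have := norm_add_le (Complex.exp E - 1) 1
      rwa [sub_add_cancel] at this
    rw [norm_one] at h3
    nlinarith [norm_nonneg E, mul_nonneg κ0.le hd0]
  have hF : ‖Complex.exp E * (1 + m) - 1‖ ≤
      (1 + 2 * (κ * d)) * (κ * (T x' x + l / 8 * s)) := by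
    have h3 : Complex.exp E * (1 + m) - 1 = (Complex.exp E - 1) + Complex.exp E * m := by ring
    rw [h3]
    refine (norm_add_le _ _).trans ?_
    rw [norm_mul]
    have h4 : ‖Complex.exp E‖ * ‖m‖ ≤ (1 + 2 * (κ * d)) * (κ * l / 8 * s) :=
      mul_le_mul hE3 hm (norm_nonneg _) (by positivity)
    have h5 : (1 + κ * d) * ‖E‖ ≤ (1 + 2 * (κ * d)) * (κ * T x' x) :=
      mul_le_mul (by nlinarith [mul_nonneg κ0.le hd0]) e2 (norm_nonneg _) (by positivity)
    calc ‖Complex.exp E - 1‖ + ‖Complex.exp E‖ * ‖m‖ ≤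
          (1 + 2 * (κ * d)) * (κ * T x' x) + (1 + 2 * (κ * d)) * (κ * l / 8 * s) := by linarith
      _ = _ := by ring
  have hX : 0 ≤ κ * (T x' x + l / 8 * s) := by positivity
  calc ‖psi z x' * V x'‖ * rho l W x * ‖Complex.exp E * (1 + m) - 1‖ ≤
        ((1 + 2 * (κ * (d + 1))) * r * rho l W x') * rho l W x *
          ((1 + 2 * (κ * d)) * (κ * (T x' x + l / 8 * s))) := by
        apply mul_le_mul (mul_le_mul_of_nonneg_right hR hρ.le) hF (norm_nonneg _)
        positivity
    _ = ((1 + 2 * (κ * (d + 1))) * (1 + 2 * (κ * d))) *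
          (r * rho l W x' * rho l W x * (κ * (T x' x + l / 8 * s))) := by ring
    _ ≤ (1 + 8 * κ * (d + 1)) * (r * rho l W x' * rho l W x * (κ * (T x' x + l / 8 * s))) := by
        apply mul_le_mul_of_nonneg_right _ (by positivity)
        nlinarith [mul_nonneg κ0.le hd0]
    _ = _ := by ring

/-- the extension of the density -/
noncomputable def rt (l : ℝ) (W : ℝ → ℝ) (x : ℝ) : ℝ := psiR l x * W (max 0 (min x 1))

theorem rt_eq {l : ℝ} {W : ℝ → ℝ} {x : ℝ} (h0 : 0 ≤ x) (h1 : x ≤ 1) : rt l W x = rho l W x := by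
  unfold rt rho
  rw [min_eq_left h1, max_eq_right h0]

theorem clamp_mem (x : ℝ) : max 0 (min x 1) ∈ Set.Icc (0 : ℝ) 1 :=
  ⟨le_max_left _ _, max_le zero_le_one (min_le_right _ _)⟩

theorem rt_meas {l : ℝ} {W : ℝ → ℝ} (hW : ContinuousOn W (Set.Icc 0 1)) : Measurable (rt l W) := by
  unfold rt
  apply (psiR_meas l).mul
  have h1 : Continuous (W ∘ fun x : ℝ => max 0 (min x 1)) :=
    hW.comp_continuous (by fun_prop) clamp_mem
  exact h1.measurable

open Classical in
/-- the extension of `T` -/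
noncomputable def Tt (T : ℝ → ℝ → ℝ) (x' x : ℝ) : ℝ :=
  if 0 < x' ∧ x' < x ∧ x < 1 ∧ x' ≠ 1 / 2 ∧ x ≠ 1 / 2 then T x' x else 0

theorem Tt_meas {T : ℝ → ℝ → ℝ} (hT : Measurable fun p : ℝ × ℝ => T p.1 p.2) :
    Measurable fun p : ℝ × ℝ => Tt T p.1 p.2 := by
  unfold Tt
  refine Measurable.ite ?_ hT measurable_const
  have m1 : Measurable fun p : ℝ × ℝ => p.1 := measurable_fst
  have m2 : Measurable fun p : ℝ × ℝ => p.2 := measurable_snd
  refine (measurableSet_lt measurable_const m1).inter ((measurableSet_lt m1 m2).inter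
    ((measurableSet_lt m2 measurable_const).inter (?_ : MeasurableSet
      ({p : ℝ × ℝ | p.1 ≠ 1 / 2} ∩ {p : ℝ × ℝ | p.2 ≠ 1 / 2}))))
  exact (measurableSet_eq_fun m1 measurable_const).compl.inter
    (measurableSet_eq_fun m2 measurable_const).compl

theorem cgd (hcgn : CgnStmt) : CgdStmt := by
  intro d l κ z W V T h y' y hy' hyy hy hn' hn
  obtain ⟨hc, hc2⟩ := hcgn d l κ z W V T h
  have l0 := h.l0
  have l1 := h.l1
  have κ0 := h.κ0
  have hd0 : (0 : ℝ) ≤ d := Nat.cast_nonneg d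
  have hy'1 : y' ≤ 1 := (hyy.trans_le hy).le
  obtain ⟨C, hC⟩ := isCompact_Icc.exists_bound_of_continuousOn h.adm.cont
  have hC0 : 0 ≤ C := (norm_nonneg _).trans (hC 0 ⟨le_rfl, zero_le_one⟩)
  have hrt : ∀ x, |rt l W x| ≤ C := by
    intro x
    unfold rt
    rw [abs_mul, abs_of_nonneg (psiR_nn l0 x)]
    calc psiR l x * |W (max 0 (min x 1))| ≤ 1 * C :=
          mul_le_mul (psiR_le l1 x) (hC _ (clamp_mem x)) (abs_nonneg _) zero_le_one
      _ = C := one_mul C
  have hTt : ∀ x' x, 0 ≤ Tt T x' x ∧ Tt T x' x ≤ d := by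
    intro x' x
    unfold Tt
    split_ifs with h1
    · exact h.mono x' x h1.1 h1.2.1 h1.2.2.1 h1.2.2.2.1 h1.2.2.2.2
    · exact ⟨le_rfl, hd0⟩
  have mrt := rt_meas (l := l) h.adm.cont
  have mTt := Tt_meas h.meas
  have mG : Measurable fun p : ℝ × ℝ => rt l W p.1 * rt l W p.2 * Tt T p.2 p.1 :=
    ((mrt.comp measurable_fst).mul (mrt.comp measurable_snd)).mul (mTt.comp measurable_swap)
  have bG : ∀ x x', ‖rt l W x * rt l W x' * Tt T x' x‖ ≤ C * C * d := by
    intro x x'
    rw [Real.norm_eq_abs, abs_mul, abs_mul, abs_of_nonneg (hTt x' x).1]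
    exact mul_le_mul (mul_le_mul (hrt x) (hrt x') (abs_nonneg _) hC0) (hTt x' x).2 (hTt x' x).1
      (by positivity)
  obtain ⟨F, hF⟩ : ∃ F : ℝ → ℝ, ∀ x, F x = ∫ x' in (0 : ℝ)..y', rt l W x * rt l W x' * Tt T x' x :=
    ⟨_, fun _ => rfl⟩
  have mF : Measurable F := by
    have h1 : StronglyMeasurable fun x => ∫ x', rt l W x * rt l W x' * Tt T x' x
        ∂(volume.restrict (Set.Ioc 0 y')) :=
      StronglyMeasurable.integral_prod_right (f := fun x x' => rt l W x * rt l W x' * Tt T x' x)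
        mG.stronglyMeasurable
    have h2 : F = fun x => ∫ x', rt l W x * rt l W x' * Tt T x' x
        ∂(volume.restrict (Set.Ioc 0 y')) := by
      funext x
      rw [hF, intervalIntegral.integral_of_le hy'.le]
    rw [h2]
    exact h1.measurable
  have bF : ∀ x, ‖F x‖ ≤ C * C * d * |y' - 0| := by
    intro x
    rw [hF]
    exact intervalIntegral.norm_integral_le_of_norm_le_const fun x' _ => bG x x'
  have iF := ii_meas mF bF y' y
  obtain ⟨r, hr⟩ : ∃ r, r = ‖V (1 / 4) / (W (1 / 4) : ℂ)‖ := ⟨_, rfl⟩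
  obtain ⟨K, hK⟩ : ∃ K, K = (1 + 8 * κ * (d + 1)) * r * κ := ⟨_, rfl⟩
  have hK0 : 0 ≤ K := by
    rw [hK, hr]
    positivity
  -- integrability
  have iρ' := ii_rho (l := l) h.adm.cont le_rfl hy'.le hy'1
  have iR' := ii_psi z h.cont le_rfl hy'.le hy'1
  have iρ := ii_rho (l := l) h.adm.cont hy'.le hyy.le hy
  have iR := ii_psi z h.cont hy'.le hyy.le hy
  obtain ⟨Z', hZ'⟩ : ∃ Z', Z' = Zf l W y' := ⟨_, rfl⟩
  obtain ⟨X', hX'⟩ : ∃ X', X' = ZCf z V y' := ⟨_, rfl⟩
  have hZ'0 : 0 < Z' := by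
    rw [hZ']
    exact (hc2 y' hy' hy'1).1
  -- the inner integral
  have inner : ∀ x, y' < x → x < 1 → x ≠ 1 / 2 →
      ‖psi z x * V x * (Z' : ℂ) - (rho l W x : ℝ) * X'‖ ≤
        K * (F x + l / 8 * ((if 1 / 2 < x then 1 else 0) * rho l W x * Z')) := by
    intro x hx hx1 hx2
    have e1 : psi z x * V x * (Z' : ℂ) - (rho l W x : ℝ) * X' = ∫ x' in (0 : ℝ)..y',
        (psi z x * V x * ((rho l W x' : ℝ) : ℂ) - (rho l W x : ℝ) * (psi z x' * V x')) := by
      have i1 : IntervalIntegrable (fun x' => psi z x * V x * ((rho l W x' : ℝ) : ℂ)) volume 0 y' :=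
        IntervalIntegrable.const_mul (f := fun x => ((rho l W x : ℝ) : ℂ))
          ⟨iρ'.1.ofReal, iρ'.2.ofReal⟩ _
      rw [intervalIntegral.integral_sub i1 (iR'.const_mul _), intervalIntegral.integral_const_mul,
        intervalIntegral.integral_const_mul, intervalIntegral.integral_ofReal, hZ', hX']
      rfl
    have i2 : IntervalIntegrable (fun x' => rt l W x * rt l W x' * Tt T x' x) volume 0 y' :=
      ii_meas (mG.comp (measurable_const.prodMk measurable_id)) (fun x' => bG x x') 0 y'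
    have e2 : K * (F x + l / 8 * ((if 1 / 2 < x then 1 else 0) * rho l W x * Z')) =
        ∫ x' in (0 : ℝ)..y', K * (rt l W x * rt l W x' * Tt T x' x +
          l / 8 * ((if 1 / 2 < x then 1 else 0) * rho l W x * rho l W x')) := by
      rw [intervalIntegral.integral_const_mul, intervalIntegral.integral_add i2
        ((iρ'.const_mul _).const_mul _), intervalIntegral.integral_const_mul,
        intervalIntegral.integral_const_mul, hF, hZ']
      rfl
    rw [e1, e2]
    refine intervalIntegral.norm_integral_le_of_norm_le hy'.le ?_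
      ((i2.add ((iρ'.const_mul _).const_mul _)).const_mul _)
    filter_upwards [ae_ne (1 / 2)] with x' hx'1 hx'2
    have h1 := point h hc hx'2.1 (hx'2.2.trans_lt hx) hx1 hx'1 hx2
    have h2 : Tt T x' x = T x' x := by
      unfold Tt
      rw [if_pos ⟨hx'2.1, hx'2.2.trans_lt hx, hx1, hx'1, hx2⟩]
    rw [rt_eq (hy'.trans hx).le hx1.le, rt_eq hx'2.1.le (hx'2.2.trans hy'1), h2, hK, hr]
    exact h1
  -- the indicator part
  have ind : ∀ (a b : ℝ), 0 ≤ a → a ≤ b → b ≤ 1 → IntervalIntegrable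
      (fun x => (if 1 / 2 < x then (1 : ℝ) else 0) * rho l W x * Z') volume a b := by
    intro a b ha hab hb
    have h1 : Measurable fun x => (if 1 / 2 < x then (1 : ℝ) else 0) * rt l W x * Z' :=
      ((Measurable.ite measurableSet_Ioi measurable_const measurable_const).mul mrt).mul_const _
    have h2 : ∀ x, ‖(if 1 / 2 < x then (1 : ℝ) else 0) * rt l W x * Z'‖ ≤ 1 * C * Z' := by
      intro x
      rw [Real.norm_eq_abs, abs_mul, abs_mul, abs_of_pos hZ'0]
      apply mul_le_mul_of_nonneg_right _ hZ'0.le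
      apply mul_le_mul _ (hrt x) (abs_nonneg _) zero_le_one
      split_ifs <;> norm_num
    refine (ii_meas h1 h2 a b).congr_ae ?_
    rw [EventuallyEq, ae_restrict_iff' measurableSet_uIoc]
    refine Eventually.of_forall fun x hx => ?_
    rw [Set.uIoc_of_le hab] at hx
    show (if 1 / 2 < x then (1 : ℝ) else 0) * rt l W x * Z' = _
    rw [rt_eq (ha.trans hx.1.le) (hx.2.trans hb)]
  have e3 : ∫ x in y'..y, (if 1 / 2 < x then (1 : ℝ) else 0) * rho l W x * Z' =
      if 1 / 2 < y then Z' * ∫ x in (max y' (1 / 2))..y, rho l W x else 0 := by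
    split_ifs with hy2
    · have hm1 : y' ≤ max y' (1 / 2) := le_max_left _ _
      have hm2 : max y' (1 / 2) ≤ y := max_le hyy.le hy2.le
      have hm0 : 0 ≤ max y' (1 / 2) := hy'.le.trans hm1
      rw [← intervalIntegral.integral_add_adjacent_intervals (ind y' _ hy'.le hm1 (hm2.trans hy))
        (ind _ y hm0 hm2 hy)]
      have h1 : ∫ x in y'..(max y' (1 / 2)), (if 1 / 2 < x then (1 : ℝ) else 0) * rho l W x * Z' =
          0 := by
        rw [intervalIntegral.integral_congr_ae (g := fun _ => (0 : ℝ)),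
          intervalIntegral.integral_zero]
        refine Eventually.of_forall fun x hx => ?_
        rw [Set.uIoc_of_le hm1] at hx
        have h2 : ¬ 1 / 2 < x := by
          intro h3
          rcases max_choice y' (1 / 2) with h4 | h4
          · rw [h4] at hx
            exact absurd (hx.1.trans_le hx.2) (lt_irrefl _)
          · rw [h4] at hx
            exact absurd (h3.trans_le hx.2) (lt_irrefl _)
        rw [if_neg h2, zero_mul, zero_mul]
      have h2 : ∫ x in (max y' (1 / 2))..y, (if 1 / 2 < x then (1 : ℝ) else 0) * rho l W x * Z' =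
          Z' * ∫ x in (max y' (1 / 2))..y, rho l W x := by
        rw [← intervalIntegral.integral_const_mul]
        apply intervalIntegral.integral_congr_ae
        refine Eventually.of_forall fun x hx => ?_
        rw [Set.uIoc_of_le hm2] at hx
        rw [if_pos ((le_max_right _ _).trans_lt hx.1)]
        ring
      rw [h1, h2, zero_add]
    · rw [intervalIntegral.integral_congr_ae (g := fun _ => (0 : ℝ)),
        intervalIntegral.integral_zero]
      refine Eventually.of_forall fun x hx => ?_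
      rw [Set.uIoc_of_le hyy.le] at hx
      rw [if_neg fun h3 => hy2 (h3.trans_le hx.2), zero_mul, zero_mul]
  have e4 : C2 l W T y' y = ∫ x in y'..y, F x := by
    unfold C2
    apply intervalIntegral.integral_congr_ae
    filter_upwards [ae_ne (1 / 2), ae_ne 1] with x hx1 hx2 hx
    rw [Set.uIoc_of_le hyy.le] at hx
    have hx3 : x < 1 := lt_of_le_of_ne (hx.2.trans hy) hx2
    rw [hF]
    apply intervalIntegral.integral_congr_ae
    filter_upwards [ae_ne (1 / 2)] with x' hx'1 hx'2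
    rw [Set.uIoc_of_le hy'.le] at hx'2
    rw [rt_eq (hy'.trans hx.1).le hx3.le, rt_eq hx'2.1.le (hx'2.2.trans hy'1)]
    unfold Tt
    rw [if_pos ⟨hx'2.1, hx'2.2.trans_lt hx.1, hx3, hx'1, hx1⟩]
  -- the outer integral
  have e5 : ZCf z V y = X' + ∫ x in y'..y, psi z x * V x := by
    rw [hX']
    unfold ZCf
    rw [intervalIntegral.integral_add_adjacent_intervals iR' iR]
  have e6 : Zf l W y = Z' + ∫ x in y'..y, rho l W x := by
    rw [hZ']
    unfold Zf
    rw [intervalIntegral.integral_add_adjacent_intervals iρ' iρ]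
  have iρc : IntervalIntegrable (fun x => ((rho l W x : ℝ) : ℂ)) volume y' y :=
    ⟨iρ.1.ofReal, iρ.2.ofReal⟩
  have e7 : ZCf z V y * (Z' : ℂ) - X' * (Zf l W y : ℝ) =
      ∫ x in y'..y, (psi z x * V x * (Z' : ℂ) - (rho l W x : ℝ) * X') := by
    rw [intervalIntegral.integral_sub (iR.mul_const _) (iρc.mul_const _),
      intervalIntegral.integral_mul_const, intervalIntegral.integral_mul_const,
      intervalIntegral.integral_ofReal, e5, e6]
    push_cast
    ring
  have e8 : (1 + 8 * κ * (d + 1)) * ‖V (1 / 4) / (W (1 / 4) : ℂ)‖ * κ * (C2 l W T y' y +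
      l / 8 * (if 1 / 2 < y then Z' * ∫ x in (max y' (1 / 2))..y, rho l W x else 0)) =
      ∫ x in y'..y, K * (F x + l / 8 * ((if 1 / 2 < x then 1 else 0) * rho l W x * Z')) := by
    rw [intervalIntegral.integral_const_mul, intervalIntegral.integral_add iF
      ((ind y' y hy'.le hyy.le hy).const_mul _), intervalIntegral.integral_const_mul, e3, e4, hK,
      hr]
  rw [← hZ', ← hX', e7, e8]
  refine intervalIntegral.norm_integral_le_of_norm_le hyy.le ?_
    ((iF.add ((ind y' y hy'.le hyy.le hy).const_mul _)).const_mul _)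
  filter_upwards [ae_ne (1 / 2), ae_ne 1] with x hx1 hx2 hx
  exact inner x hx.1 (lt_of_le_of_ne (hx.2.trans hy) hx2) hx1

end Pool.Agent.Helper35.BO
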