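import Pool.Agent.Helper92.BO.GoalsG

/-! Project BO: packet CHG. -/

set_option autoImplicit false

namespace Pool.Agent.Helper35.BO

open Pool.Agent.Helper92.BO

theorem pos1_cutG (G : SimpleGraph ℕ) (v : ℕ) {x : ℝ} (hx1 : x < 1)
    {L : List ℕ} {b : ℕ → ℝ} (h : Pos1 L b) : Pos1 L (cut G v (1 - x) b) := by
  intro u hu
  obtain ⟨h1, h2⟩ := h u hu
  unfold cut
  split_ifs
  · exact ⟨lt_min h1 (by linarith), (min_le_left _ _).trans h2⟩
  · exact ⟨h1, h2⟩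

theorem good_cutG (G : SimpleGraph ℕ) (v : ℕ) {x : ℝ} (hx1 : x < 1) (hx : x ≠ 1 / 2)
    {L : List ℕ} {b : ℕ → ℝ} (h : Good L b) : Good L (cut G v (1 - x) b) := by
  intro u hu
  obtain ⟨h1, h2, h3⟩ := h u hu
  unfold cut
  split_ifs
  · refine ⟨lt_min h1 (by linarith), (min_le_left _ _).trans h2, ?_⟩
    rcases min_choice (b u) (1 - x) with h4 | h4
    · rw [h4]; exact h3
    · rw [h4]
      intro h5
      exact hx (by linarith)
  · exact ⟨h1, h2, h3⟩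

theorem cut_anti (G : SimpleGraph ℕ) (v : ℕ) {x' x : ℝ} (hx : x' < x) (b : ℕ → ℝ) (u : ℕ) :
    cut G v (1 - x) b u ≤ cut G v (1 - x') b u := by
  unfold cut
  split_ifs
  · exact min_le_min le_rfl (by linarith)
  · exact le_rfl

theorem chg (hadm : AdmStmt) (hcnt : CntStmt) (htmm : TmmStmt) (htmb : TmbStmt)
    (htnn : TnnStmt) : ChgStmt := by
  intro G l κ Δ z hD hl0 hl1 hκ0 hκ1 hz L v b hnd hv hb hHG
  have hb1 : Pos1 L b := fun u hu => ⟨(hb u hu).1, (hb u hu).2.1⟩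
  have hb2 : In01 L b := fun u hu => ⟨(hb u hu).1.le, (hb u hu).2.1⟩
  refine ⟨hl0, hl1, hκ0, hκ1, hz, hadm G Δ l L v b hD hl0 hl1 hnd hv hb1,
    (hcnt G z l L v b hb2).1, ?_, (htmm G l L v b).1, ?_, ?_⟩
  · intro x _ hx1 hx
    exact hHG.1 _ (good_cutG G v hx1 hx hb)
  · intro x' x hx0 hxx hx1 hx' hx
    have hg := good_cutG G v hx1 hx hb
    have hg' := good_cutG G v (hxx.trans hx1) hx' hb
    refine ⟨htnn G l Δ hD hl0 hl1 L _ _ hnd hg' hg fun u _ => cut_anti G v hxx b u, ?_⟩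
    exact (htmb G l L b b hl0 hl1 hnd hb1 hb1).2 Δ v x' x hD hx0.le hxx.le hx1
  · intro x' x hx0 hxx hx1 hx' hx
    have hg := good_cutG G v hx1 hx hb
    have hg' := good_cutG G v (hxx.trans hx1) hx' hb
    obtain ⟨D, hD1, hD2⟩ := hHG.2 _ _ hg' hg fun u _ => cut_anti G v hxx b u
    refine ⟨-D, ?_, ?_⟩
    · show ZC G z L (cut G v (1 - x) b) * (ZR G l L (cut G v (1 - x') b) : ℂ) =
        Complex.exp (-D) * (ZC G z L (cut G v (1 - x') b) * (ZR G l L (cut G v (1 - x) b) : ℂ))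
      rw [hD1, ← mul_assoc, ← Complex.exp_add, neg_add_cancel, Complex.exp_zero, one_mul]
    · rw [norm_neg]
      exact hD2

end Pool.Agent.Helper35.BO
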