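import Pool.Agent.Helper92.BO.GoalsA

/-! Project BO: packet CNT. -/

set_option autoImplicit false

namespace Pool.Agent.Helper35.BO

open MeasureTheory
open Pool.Agent.Helper92.BO

theorem in01_cut (G : SimpleGraph ℕ) (L : List ℕ) (v : ℕ) (b : ℕ → ℝ) (hb : In01 L b)
    {c : ℝ} (h0 : 0 ≤ c) : In01 L (cut G v c b) := by
  intro u hu
  obtain ⟨h1, h2⟩ := hb u hu
  unfold cut
  by_cases h : G.Adj v u
  · rw [if_pos h]
    exact ⟨le_min h1 h0, (min_le_left _ _).trans h2⟩
  · rw [if_neg h]
    exact ⟨h1, h2⟩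

theorem cut_diff (G : SimpleGraph ℕ) (v : ℕ) (b : ℕ → ℝ) (c c' : ℝ) (u : ℕ) :
    |cut G v c b u - cut G v c' b u| ≤ |c - c'| := by
  unfold cut
  by_cases h : G.Adj v u
  · rw [if_pos h, if_pos h]
    have h1 := abs_min_sub_min_le_max (b u) c (b u) c'
    rw [sub_self, abs_zero, max_eq_right (abs_nonneg _)] at h1
    exact h1
  · rw [if_neg h, if_neg h, sub_self, abs_zero]
    exact abs_nonneg _

theorem sum_le_len {f : ℕ → ℝ} {d : ℝ} : ∀ L : List ℕ, (∀ u, f u ≤ d) →
    (L.map f).sum ≤ L.length * d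
  | [], _ => by simp
  | v :: L, h => by
    rw [List.map_cons, List.sum_cons, List.length_cons]
    have h1 := sum_le_len L h
    have h2 := h v
    push_cast
    linarith

theorem cont_ZC (h1 : LipStmt) (G : SimpleGraph ℕ) (z : ℂ) (L : List ℕ) (v : ℕ) (b : ℕ → ℝ)
    (hb : In01 L b) : ContinuousOn (fun x => ZC G z L (cut G v (1 - x) b)) (Set.Icc 0 1) := by
  have hlip := h1 G z (max 1 ‖z‖) (le_max_left _ _) (le_max_right _ _) L
  obtain ⟨K, hK⟩ : ∃ K : ℝ, K = (max 1 ‖z‖) ^ L.length * L.length := ⟨_, rfl⟩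
  have hK0 : 0 ≤ K := by rw [hK]; positivity
  have key : ∀ x ∈ Set.Icc (0 : ℝ) 1, ∀ x' ∈ Set.Icc (0 : ℝ) 1,
      ‖ZC G z L (cut G v (1 - x) b) - ZC G z L (cut G v (1 - x') b)‖ ≤ K * |x - x'| := by
    intro x hx x' hx'
    have h2 := (hlip _ _ (in01_cut G L v b hb (by linarith [hx.2] : (0 : ℝ) ≤ 1 - x))
      (in01_cut G L v b hb (by linarith [hx'.2] : (0 : ℝ) ≤ 1 - x'))).2
    refine h2.trans ?_
    rw [hK, mul_assoc]
    apply mul_le_mul_of_nonneg_left _ (by positivity)
    apply sum_le_len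
    intro u
    refine (cut_diff G v b (1 - x) (1 - x') u).trans (le_of_eq ?_)
    rw [show 1 - x - (1 - x') = -(x - x') by ring, abs_neg]
  have hL : LipschitzOnWith K.toNNReal (fun x => ZC G z L (cut G v (1 - x) b))
      (Set.Icc 0 1) := by
    apply LipschitzOnWith.of_dist_le_mul
    intro x hx x' hx'
    rw [dist_eq_norm, Real.dist_eq, Real.coe_toNNReal _ hK0]
    exact key x hx x' hx'
  exact hL.continuousOn

theorem ii_psi (z : ℂ) : IntervalIntegrable (psi z) volume 0 1 := by
  have hm : Measurable (psi z) := by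
    unfold psi
    exact Measurable.ite measurableSet_Iic measurable_const measurable_const
  rw [intervalIntegrable_iff]
  refine Measure.integrableOn_of_bounded (M := max 1 ‖z‖) ?_ hm.aestronglyMeasurable ?_
  · rw [Set.uIoc_of_le (zero_le_one' ℝ)]
    exact measure_Ioc_lt_top.ne
  · refine Filter.Eventually.of_forall fun x => ?_
    unfold psi
    by_cases h : x ≤ 1 / 2
    · rw [if_pos h, norm_one]
      exact le_max_left _ _
    · rw [if_neg h]
      exact le_max_right _ _

theorem ii_psiR (l : ℝ) : IntervalIntegrable (psiR l) volume 0 1 := by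
  have hm : Measurable (psiR l) := by
    unfold psiR
    exact Measurable.ite measurableSet_Iic measurable_const measurable_const
  rw [intervalIntegrable_iff]
  refine Measure.integrableOn_of_bounded (M := max 1 ‖l‖) ?_ hm.aestronglyMeasurable ?_
  · rw [Set.uIoc_of_le (zero_le_one' ℝ)]
    exact measure_Ioc_lt_top.ne
  · refine Filter.Eventually.of_forall fun x => ?_
    unfold psiR
    by_cases h : x ≤ 1 / 2
    · rw [if_pos h, norm_one]
      exact le_max_left _ _
    · rw [if_neg h]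
      exact le_max_right _ _

theorem cnt (h1 : LipStmt) (h2 : CasStmt) : CntStmt := by
  intro G z l L v b hb
  have c1 := cont_ZC h1 G z L v b hb
  have c2 : ContinuousOn (fun x => ZR G l L (cut G v (1 - x) b)) (Set.Icc 0 1) := by
    have c3 := cont_ZC h1 G (l : ℂ) L v b hb
    have c4 : ContinuousOn (fun x => (ZC G (l : ℂ) L (cut G v (1 - x) b)).re) (Set.Icc 0 1) :=
      Complex.continuous_re.comp_continuousOn c3
    refine c4.congr fun x _ => ?_
    show ZR G l L (cut G v (1 - x) b) = (ZC G (l : ℂ) L (cut G v (1 - x) b)).re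
    rw [h2, Complex.ofReal_re]
  have hu : Set.uIcc (0 : ℝ) 1 = Set.Icc 0 1 := Set.uIcc_of_le zero_le_one
  refine ⟨c1, c2, ?_, ?_⟩
  · exact (ii_psi z).mul_continuousOn (by rw [hu]; exact c1)
  · exact (ii_psiR l).mul_continuousOn (by rw [hu]; exact c2)

end Pool.Agent.Helper35.BO
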