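import Pool.Agent.Helper92.BO.GoalsA

/-! Project BO: packet FLP. -/

set_option autoImplicit false

namespace Pool.Agent.Helper35.BO

open MeasureTheory
open Pool.Agent.Helper92.BO

theorem KR_neg (G : SimpleGraph ℕ) (s : ℕ → ℝ) (l : ℝ) : ∀ (L : List ℕ) (b : ℕ → ℝ),
    KR G (fun v => - s v) l L b = - KR G s l L b
  | [], b => by
    show (0 : ℝ) = -0
    rw [neg_zero]
  | v :: L, b => by
    show (∫ x in (0 : ℝ)..(b v), psiR l x *
        (- s v * (2 * x - 1) * ZR G l L (cut G v (1 - x) b) +
          KR G (fun v => - s v) l L (cut G v (1 - x) b))) +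
      (if 1 / 2 < b v then - s v * (1 - l) / 4 * ZR G l L (cut G v (1 / 2) b) else 0) =
      - ((∫ x in (0 : ℝ)..(b v), psiR l x *
        (s v * (2 * x - 1) * ZR G l L (cut G v (1 - x) b) + KR G s l L (cut G v (1 - x) b))) +
      (if 1 / 2 < b v then s v * (1 - l) / 4 * ZR G l L (cut G v (1 / 2) b) else 0))
    have h1 : (∫ x in (0 : ℝ)..(b v), psiR l x *
        (- s v * (2 * x - 1) * ZR G l L (cut G v (1 - x) b) +
          KR G (fun v => - s v) l L (cut G v (1 - x) b))) =
        - ∫ x in (0 : ℝ)..(b v), psiR l x *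
        (s v * (2 * x - 1) * ZR G l L (cut G v (1 - x) b) + KR G s l L (cut G v (1 - x) b)) := by
      rw [← intervalIntegral.integral_neg]
      congr 1
      funext x
      rw [KR_neg G s l L]
      ring
    rw [h1]
    by_cases h2 : 1 / 2 < b v
    · rw [if_pos h2, if_pos h2]
      ring
    · rw [if_neg h2, if_neg h2]
      ring

theorem flp : FlpStmt := by
  intro G s l L b
  refine ⟨KR_neg G s l L b, fun h => ⟨fun v => ?_, fun u v huv => ?_⟩⟩
  · rcases h.pm v with h1 | h1
    · right
      show - s v = -1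
      rw [h1]
    · left
      show - s v = 1
      rw [h1, neg_neg]
  · show - s u = - (- s v)
    rw [h.alt u v huv]

end Pool.Agent.Helper35.BO
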